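import Pool.Agent.Helper70.BN.St1

set_option autoImplicit false

namespace Pool.Agent.Helper37.BN

open Pool.Agent.Helper70.BN

theorem mem_rts_split {l : ℕ} {A : Fin l → Fin l → ℤ} :
    ∀ (w : List (Fin l)) (β : Fin l → ℤ), β ∈ rts A w →
      ∃ (a : List (Fin l)) (j : Fin l) (b : List (Fin l)), w = a ++ j :: b ∧ wa A a (al j) = β := by
  intro w
  induction w with
  | nil =>
    intro β hβ
    simp [rts] at hβ
  | cons i w ih =>
    intro β hβ
    rw [rts_cons, List.mem_cons, List.mem_map] at hβ
    rcases hβ with rfl | ⟨γ, hγ, rfl⟩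
    · exact ⟨[], i, w, rfl, rfl⟩
    · obtain ⟨a, j, b, hw, ha⟩ := ih γ hγ
      refine ⟨i :: a, j, b, ?_, ?_⟩
      · rw [hw]; rfl
      · rw [wa_cons, ha]

theorem rev_eq {l : ℕ} {A : Fin l → Fin l → ℤ} (hd : ∀ i, A i i = 2) (w w' : List (Fin l))
    (h : ∀ v, wa A w v = wa A w' v) (v : Fin l → ℤ) : wa A w.reverse v = wa A w'.reverse v := by
  have h1 : wa A w' (wa A w.reverse v) = v := by
    rw [← h, wa_reverse hd]
  have h2 := reverse_wa hd w' (wa A w.reverse v)
  rw [h1] at h2
  exact h2.symm

theorem hRRED (hRCONJ : StRCONJ) (hRINV : StRINV) : StRRED := by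
  intro l A d Φ h
  obtain ⟨inv1, inv2, inv3⟩ := hRINV l A d Φ h
  have conj := hRCONJ l A d Φ h
  have hd := h.diag
  -- (1)
  have p1 : ∀ (i : Fin l) (w : List (Fin l)), Red A w → al i ∉ rts A w → Red A (i :: w) := by
    intro i w hw hi β hβ
    rw [rts_cons, List.mem_cons, List.mem_map] at hβ
    rcases hβ with rfl | ⟨γ, hγ, rfl⟩
    · exact al_nonneg i
    · apply inv1 i γ (rts_mem h w hγ) (hw γ hγ)
      intro hc
      exact hi (hc ▸ hγ)
  -- deletion
  have del : ∀ (i : Fin l) (w a : List (Fin l)) (j : Fin l) (b : List (Fin l)), w = a ++ j :: b →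
      wa A a (al j) = al i → ∀ v, wa A (i :: w) v = wa A (a ++ b) v := by
    intro i w a j b hw ha v
    have h1 := conj a i j ha (sr A j (wa A b v))
    rw [hw, wa_cons, wa_append, wa_cons, h1, sr_sr hd, wa_append]
  -- (2)
  have p2' : ∀ (n : ℕ) (w : List (Fin l)), w.length = n →
      ∃ w', Red A w' ∧ (∀ v, wa A w' v = wa A w v) ∧ w'.length ≤ w.length := by
    intro n
    induction n using Nat.strong_induction_on with
    | _ n ih =>
      intro w hn
      cases w with
      | nil =>
        refine ⟨[], ?_, fun v => rfl, le_refl _⟩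
        intro β hβ
        simp [rts] at hβ
      | cons i w1 =>
        rw [List.length_cons] at hn
        obtain ⟨w2, hr2, he2, hl2⟩ := ih w1.length (by omega) w1 rfl
        by_cases hi : al i ∈ rts A w2
        · obtain ⟨a, j, b, hw, ha⟩ := mem_rts_split w2 (al i) hi
          have hlen : w2.length = (a ++ b).length + 1 := by
            rw [hw]
            simp only [List.length_append, List.length_cons]
            omega
          obtain ⟨w3, hr3, he3, hl3⟩ := ih (a ++ b).length (by omega) (a ++ b) rfl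
          refine ⟨w3, hr3, ?_, ?_⟩
          · intro v
            rw [he3, ← del i w2 a j b hw ha v, wa_cons, he2, wa_cons]
          · rw [List.length_cons]
            omega
        · refine ⟨i :: w2, p1 i w2 hr2 hi, ?_, ?_⟩
          · intro v
            rw [wa_cons, he2, wa_cons]
          · rw [List.length_cons, List.length_cons]
            omega
  have p2 : ∀ w : List (Fin l), ∃ w', Red A w' ∧ (∀ v, wa A w' v = wa A w v) ∧ w'.length ≤ w.length :=
    fun w => p2' w.length w rfl
  -- (3)
  have p3 : ∀ (i : Fin l) (w : List (Fin l)), Red A (i :: w) → Red A w := by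
    intro i w hw β hβ
    have hm : sr A i β ∈ rts A (i :: w) := by
      rw [rts_cons, List.mem_cons, List.mem_map]
      exact Or.inr ⟨β, hβ, rfl⟩
    have h0 : 0 ≤ sr A i β := hw _ hm
    have hΦ : sr A i β ∈ Φ := rts_mem h _ hm
    have hne : sr A i β ≠ al i := by
      intro hc
      have hnd := inv3 (i :: w) hw
      rw [rts_cons, List.nodup_cons] at hnd
      apply hnd.1
      rw [List.mem_map]
      exact ⟨β, hβ, hc⟩
    have h1 := inv1 i (sr A i β) hΦ h0 hne
    rwa [sr_sr hd] at h1
  -- (4)
  have p4 : ∀ w w' : List (Fin l), Red A w → Red A w' → (∀ v, wa A w v = wa A w' v) →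
      (∀ β, β ∈ rts A w ↔ β ∈ rts A w') ∧ w.length = w'.length := by
    intro w w' hw hw' he
    have hm : ∀ β, β ∈ rts A w ↔ β ∈ rts A w' := by
      intro β
      constructor
      · intro hβ
        have hΦ := rts_mem h w hβ
        have h0 := hw β hβ
        have h1 := (inv2 w hw β hΦ h0).2 hβ
        rw [rev_eq hd w w' he] at h1
        exact (inv2 w' hw' β hΦ h0).1 h1
      · intro hβ
        have hΦ := rts_mem h w' hβ
        have h0 := hw' β hβ
        have h1 := (inv2 w' hw' β hΦ h0).2 hβ
        rw [← rev_eq hd w w' he] at h1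
        exact (inv2 w hw β hΦ h0).1 h1
    refine ⟨hm, ?_⟩
    have hp : (rts A w).Perm (rts A w') :=
      (List.perm_ext_iff_of_nodup (inv3 w hw) (inv3 w' hw')).2 hm
    have hl := hp.length_eq
    rwa [rts_length, rts_length] at hl
  refine ⟨p1, p2, p3, p4, ?_⟩
  -- (5)
  intro i w hw hi
  obtain ⟨a, j, b, hwe, ha⟩ := mem_rts_split w (al i) hi
  obtain ⟨w', hr', he', hl'⟩ := p2 (a ++ b)
  have hd1 := del i w a j b hwe ha
  have he : ∀ v, wa A (i :: w') v = wa A w v := by
    intro v
    rw [wa_cons, he', ← hd1 v, wa_cons, sr_sr hd]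
  have hnot : al i ∉ rts A w' := by
    intro hc
    have h1 := (inv2 w' hr' (al i) (h.simple i) (al_nonneg i)).2 hc
    have h2 := (inv2 w hw (al i) (h.simple i) (al_nonneg i)).2 hi
    -- wa w'.reverse (al i) = - wa w.reverse (al i)
    have h3 : wa A (i :: w').reverse (al i) = wa A w.reverse (al i) := rev_eq hd (i :: w') w he (al i)
    rw [List.reverse_cons, wa_append, wa_cons, wa_nil, sr_al_self hd, wa_neg] at h3
    rw [← h3] at h2
    have h4 : 0 ≤ wa A w'.reverse (al i) := by
      intro k
      have := h2 k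
      simp only [Pi.neg_apply, Pi.zero_apply] at this ⊢
      omega
    exact not_nonpos_of_nonneg h (wa_mem h _ (h.simple i)) h4 h1
  have hred := p1 i w' hr' hnot
  refine ⟨w', hred, he, ?_⟩
  have hl := (p4 (i :: w') w hred hw he).2
  rwa [List.length_cons] at hl

end Pool.Agent.Helper37.BN
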